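import Pool.Agent.Run7.h464.Main

set_option autoImplicit false

/-- Over any field, every polynomial automorphism, after adding variables, is the fibre at `s = 0`
of a family of automorphisms over `k[s]` all of whose fibres at invertible parameters are tame. -/
theorem Pool.Agent.Results.MP_91aed7_ag.TameDegeneration.result (k : Type) [Field k] (n : ℕ)
    (φ : MvPolynomial (Fin n) k ≃ₐ[k] MvPolynomial (Fin n) k) :
    ∃ l : ℕ, 0 < l ∧
      ∃ Φ : MvPolynomial (Fin (n + l)) (Polynomial k) ≃ₐ[Polynomial k]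
          MvPolynomial (Fin (n + l)) (Polynomial k),
        (∀ i : Fin n,
          MvPolynomial.mapAlgHom (Polynomial.aeval (0 : k))
              (Φ (MvPolynomial.X (Fin.castAdd l i))) =
            MvPolynomial.rename (Fin.castAdd l) (φ (MvPolynomial.X i))) ∧
        (∀ j : Fin l,
          MvPolynomial.mapAlgHom (Polynomial.aeval (0 : k))
              (Φ (MvPolynomial.X (Fin.natAdd n j))) =
            MvPolynomial.X (Fin.natAdd n j)) ∧
        ∀ (B : Type) [CommRing B] [Algebra k B] (c : Bˣ),
          ∃ τ : MvPolynomial (Fin (n + l)) B ≃ₐ[B] MvPolynomial (Fin (n + l)) B,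
            τ ∈ Subgroup.closure
              ({σ : MvPolynomial (Fin (n + l)) B ≃ₐ[B] MvPolynomial (Fin (n + l)) B |
                  ∀ i : Fin (n + l), (σ (MvPolynomial.X i)).totalDegree ≤ 1} ∪
               {σ : MvPolynomial (Fin (n + l)) B ≃ₐ[B] MvPolynomial (Fin (n + l)) B |
                  ∃ i : Fin (n + l), ∃ f : MvPolynomial (Fin (n + l)) B,
                    i ∉ f.vars ∧ σ (MvPolynomial.X i) = MvPolynomial.X i + f ∧
                    ∀ j : Fin (n + l), j ≠ i → σ (MvPolynomial.X j) = MvPolynomial.X j}) ∧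
            ∀ i : Fin (n + l),
              τ (MvPolynomial.X i) =
                MvPolynomial.mapAlgHom (Polynomial.aeval (c : B)) (Φ (MvPolynomial.X i)) := by
  obtain ⟨l, hl, Φ, h1, h2, h3⟩ := Run7.h464.main_fin k n φ
  refine ⟨l, hl, Φ, h1, h2, ?_⟩
  intro B _ _ c
  obtain ⟨τ, hτ, hX⟩ := h3 B c
  exact ⟨τ, hτ, hX⟩
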