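import Pool.Agent.Run7.h464.Compact

set_option autoImplicit false

open Run7.h464 in
/-- For every `n` and `d` the stable tameness conjecture for automorphisms of bidegree at most `d`
in `n` variables, over the fields whose characteristic lies in a set `S` containing `0` or finite,
is equivalent to its uniform version; if `0 ∈ S` the uniform bound is also valid over all fields of
sufficiently large characteristic. -/
theorem Pool.Agent.Results.MP_91aed7_ag.UniformStableTameness.result
    (n d : ℕ) (S : Set ℕ) (hS : 0 ∈ S ∨ S.Finite) :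
    (∀ (k : Type) [Field k], ringChar k ∈ S →
      ∀ φ : MvPolynomial (Fin n) k ≃ₐ[k] MvPolynomial (Fin n) k, Bideg d φ → ST φ) ↔
    ∃ c : ℕ, ∀ (k : Type) [Field k], (ringChar k ∈ S ∨ (0 ∈ S ∧ c ≤ ringChar k)) →
      ∀ φ : MvPolynomial (Fin n) k ≃ₐ[k] MvPolynomial (Fin n) k, Bideg d φ → STB c φ :=
  compactness_iff n d S hS
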